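import Pool.Agent.W198.TC.Stms3

open Complex Filter Topology Set MeasureTheory

namespace TC

namespace GlobAux

/-- on RH the zeros in the strip are on the line -/
lemma re_half (hRH : RiemannHypothesis) {s : ℂ} (h0 : 0 < s.re) (h1 : s.re < 1)
    (hz : riemannZeta s = 0) : s.re = 1 / 2 := by
  apply hRH s hz
  · rintro ⟨n, hn⟩
    have := congrArg Complex.re hn
    simp at this
    have hn0 : (0 : ℝ) ≤ n := Nat.cast_nonneg n
    linarith
  · intro h
    rw [h] at h1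
    simp at h1

lemma eq_half (hRH : RiemannHypothesis) {s : ℂ} (h0 : 0 < s.re) (h1 : s.re < 1)
    (hz : riemannZeta s = 0) : (1 / 2 + s.im * I : ℂ) = s := by
  have h := re_half hRH h0 h1 hz
  apply Complex.ext
  · simp [h]
  · simp

lemma mem_Z0 {T : ℝ} {s : ℂ} : s ∈ H343.ZSide.Z0 T ↔
    0 < s.re ∧ s.re < 1 ∧ 0 < s.im ∧ s.im ≤ T ∧ riemannZeta s = 0 := by
  unfold H343.ZSide.Z0
  rw [Set.Finite.mem_toFinset]
  rfl

/-- sums over ordinates are sums over zeros -/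
lemma sum_im (hRH : RiemannHypothesis) (S : Finset ℂ)
    (hS : ∀ s ∈ S, 0 < s.re ∧ s.re < 1 ∧ riemannZeta s = 0) :
    ∑ g ∈ S.image Complex.im, (mu g : ℝ) = ∑ s ∈ S, (H370.mult riemannZeta s : ℝ) := by
  rw [Finset.sum_image]
  · apply Finset.sum_congr rfl
    intro s hs
    obtain ⟨h0, h1, h2⟩ := hS s hs
    unfold mu
    rw [eq_half hRH h0 h1 h2]
  · intro s hs s' hs' h
    obtain ⟨h0, h1, h2⟩ := hS s hs
    obtain ⟨h0', h1', h2'⟩ := hS s' hs'
    apply Complex.ext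
    · rw [re_half hRH h0 h1 h2, re_half hRH h0' h1' h2']
    · exact h

lemma mem_ordT {T g : ℝ} (h : g ∈ ordT T) : 0 < g ∧ g ≤ T := by
  unfold ordT at h
  rw [Finset.mem_image] at h
  obtain ⟨s, hs, rfl⟩ := h
  rw [mem_Z0] at hs
  exact ⟨hs.2.2.1, hs.2.2.2.1⟩

/-- local bound -/
lemma loc (hRH : RiemannHypothesis) : ∃ L : ℝ, 0 < L ∧ ∀ T : ℝ, 3 ≤ T → ∀ t : ℝ,
    ∑ g ∈ (ordT T).filter (fun g => |g - t| ≤ 1 / 2), (mu g : ℝ) ≤ L * Real.log T := by
  obtain ⟨C, hC, hz⟩ := H370.zcount H370.good_zeta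
  have hf := H343.fcount_nonneg 4
  refine ⟨2 * C + H343.fcount 4, by linarith, fun T hT t => ?_⟩
  have hlog : 1 ≤ Real.log T := by
    rw [Real.le_log_iff_exp_le (by linarith)]
    have := Real.exp_one_lt_d9
    linarith
  have h1 : (ordT T).filter (fun g => |g - t| ≤ 1 / 2) =
      ((H343.ZSide.Z0 T).filter (fun s => |s.im - t| ≤ 1 / 2)).image Complex.im := by
    unfold ordT
    rw [Finset.filter_image]
  rw [h1, sum_im hRH _ (fun s hs => by
    rw [Finset.mem_filter, mem_Z0] at hs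
    exact ⟨hs.1.1, hs.1.2.1, hs.1.2.2.2.2⟩)]
  rcases lt_or_ge (T + 1 / 2) t with h2 | h2
  · -- empty
    have : (H343.ZSide.Z0 T).filter (fun s => |s.im - t| ≤ 1 / 2) = ∅ := by
      rw [Finset.filter_eq_empty_iff]
      intro s hs h
      rw [mem_Z0] at hs
      rw [abs_le] at h
      linarith [hs.2.2.2.1]
    rw [this, Finset.sum_empty]
    positivity
  rcases lt_or_ge t 3 with h3 | h3
  · have : ∑ s ∈ (H343.ZSide.Z0 T).filter (fun s => |s.im - t| ≤ 1 / 2),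
        (H370.mult riemannZeta s : ℝ) ≤ H343.fcount 4 := by
      unfold H343.fcount
      apply Finset.sum_le_sum_of_subset_of_nonneg
      · intro s hs
        rw [Finset.mem_filter, mem_Z0] at hs
        rw [Set.Finite.mem_toFinset]
        obtain ⟨⟨a1, a2, a3, a4, a5⟩, a6⟩ := hs
        rw [abs_le] at a6
        exact ⟨a1, a2, a3, by linarith, a5⟩
      · intro s _ _
        exact Nat.cast_nonneg _
    nlinarith
  · have hfin := H370.zset_finite H370.good_zeta (t - 1) (t + 1) (by linarith)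
    have hN := hz t h3
    rw [H370.NN_eq_sum H370.good_zeta (t - 1) (t + 1) (by linarith)] at hN
    push_cast at hN
    have : ∑ s ∈ (H343.ZSide.Z0 T).filter (fun s => |s.im - t| ≤ 1 / 2),
        (H370.mult riemannZeta s : ℝ) ≤ ∑ s ∈ (H370.zset_finite H370.good_zeta (t - 1) (t + 1)
          (by linarith)).toFinset, (H370.mult riemannZeta s : ℝ) := by
      apply Finset.sum_le_sum_of_subset_of_nonneg
      · intro s hs
        rw [Finset.mem_filter, mem_Z0] at hs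
        rw [Set.Finite.mem_toFinset]
        obtain ⟨⟨a1, a2, a3, a4, a5⟩, a6⟩ := hs
        rw [abs_le] at a6
        exact ⟨a1, a2, by linarith, by linarith, a5⟩
      · intro s _ _
        exact Nat.cast_nonneg _
    have hlt : Real.log t ≤ 2 * Real.log T := by
      have e1 : Real.log t ≤ Real.log (T ^ 2) := by
        apply Real.log_le_log (by linarith)
        nlinarith
      rw [Real.log_pow] at e1
      exact_mod_cast e1
    have : C * Real.log t ≤ C * (2 * Real.log T) := by gcongr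
    nlinarith

lemma sum_biUnion_le' {ι α : Type*} [DecidableEq ι] [DecidableEq α] (s : Finset ι)
    (t : ι → Finset α) (f : α → ℝ) (hf : ∀ x, 0 ≤ f x) :
    ∑ x ∈ s.biUnion t, f x ≤ ∑ i ∈ s, ∑ x ∈ t i, f x := by
  induction s using Finset.induction_on with
  | empty => simp
  | insert a s ha ih =>
    rw [Finset.biUnion_insert, Finset.sum_insert ha]
    have h1 := Finset.sum_union_inter (s₁ := t a) (s₂ := s.biUnion t) (f := f)
    have h2 : 0 ≤ ∑ x ∈ t a ∩ s.biUnion t, f x := Finset.sum_nonneg fun _ _ => hf _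
    linarith

/-- bound for the number of ordinates in an interval -/
lemma cnt {L T : ℝ} (hL : ∀ t : ℝ,
    ∑ g ∈ (ordT T).filter (fun g => |g - t| ≤ 1 / 2), (mu g : ℝ) ≤ L) (a b : ℝ) (hab : a ≤ b) :
    ∑ g ∈ (ordT T).filter (fun g => a < g ∧ g ≤ b), (mu g : ℝ) ≤ L * (b - a + 1) := by
  classical
  have hL0 : 0 ≤ L := le_trans (Finset.sum_nonneg fun _ _ => Nat.cast_nonneg _) (hL 0)
  have h1 : ∑ g ∈ (ordT T).filter (fun g => a < g ∧ g ≤ b), (mu g : ℝ) ≤
      ∑ g ∈ (Finset.range (⌊b - a⌋₊ + 1)).biUnion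
        (fun j => (ordT T).filter (fun g => |g - (a + j + 1 / 2)| ≤ 1 / 2)), (mu g : ℝ) := by
    apply Finset.sum_le_sum_of_subset_of_nonneg
    · intro g hg
      rw [Finset.mem_filter] at hg
      rw [Finset.mem_biUnion]
      refine ⟨⌊g - a⌋₊, ?_, ?_⟩
      · rw [Finset.mem_range]
        have : ⌊g - a⌋₊ ≤ ⌊b - a⌋₊ := Nat.floor_le_floor (by linarith [hg.2.2])
        omega
      · rw [Finset.mem_filter]
        refine ⟨hg.1, ?_⟩
        have e1 := Nat.floor_le (show 0 ≤ g - a by linarith [hg.2.1])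
        have e2 := Nat.lt_floor_add_one (g - a)
        rw [abs_le]
        constructor <;> linarith
    · intro g _ _
      exact Nat.cast_nonneg _
  have h2 : ∑ g ∈ (Finset.range (⌊b - a⌋₊ + 1)).biUnion
        (fun j => (ordT T).filter (fun g => |g - (a + j + 1 / 2)| ≤ 1 / 2)), (mu g : ℝ) ≤
      ∑ j ∈ Finset.range (⌊b - a⌋₊ + 1),
        ∑ g ∈ (ordT T).filter (fun g => |g - (a + j + 1 / 2)| ≤ 1 / 2), (mu g : ℝ) := by
    apply sum_biUnion_le'
    intro g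
    exact Nat.cast_nonneg _
  have h3 : ∑ j ∈ Finset.range (⌊b - a⌋₊ + 1),
        ∑ g ∈ (ordT T).filter (fun g => |g - (a + j + 1 / 2)| ≤ 1 / 2), (mu g : ℝ) ≤
      ∑ j ∈ Finset.range (⌊b - a⌋₊ + 1), L := Finset.sum_le_sum fun j _ => hL _
  rw [Finset.sum_const, Finset.card_range, nsmul_eq_mul] at h3
  have h4 := Nat.floor_le (show 0 ≤ b - a by linarith)
  have h5 : ((⌊b - a⌋₊ + 1 : ℕ) : ℝ) * L ≤ L * (b - a + 1) := by
    push_cast
    nlinarith
  linarith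

/-- bound for `kk` -/
lemma kk_le {L T : ℝ} (hL : ∀ t : ℝ,
    ∑ g ∈ (ordT T).filter (fun g => |g - t| ≤ 1 / 2), (mu g : ℝ) ≤ L) {r : ℝ} (hr : r ≤ 1 / 2)
    (g : ℝ) : (kk (ordT T) mu r g : ℝ) ≤ L := by
  refine le_trans ?_ (hL g)
  unfold kk
  push_cast
  apply Finset.sum_le_sum_of_subset_of_nonneg
  · intro g' hg'
    rw [Finset.mem_filter] at hg' ⊢
    exact ⟨hg'.1, hg'.2.trans hr⟩
  · intro g _ _
    exact Nat.cast_nonneg _

/-- the crude bound for the sum over an interval -/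
lemma crude {L T A : ℝ} {Φ : ℕ → ℝ} (hΦ : ∀ k, 0 ≤ Φ k) (hA : ∀ k : ℕ, Φ k ≤ A * k ^ 2)
    (hL : ∀ t : ℝ,
    ∑ g ∈ (ordT T).filter (fun g => |g - t| ≤ 1 / 2), (mu g : ℝ) ≤ L) {r : ℝ} (hr : r ≤ 1 / 2)
    (a b : ℝ) (hab : a ≤ b) :
    ∑ g ∈ (ordT T).filter (fun g => a < g ∧ g ≤ b), (mu g : ℝ) * Φ (kk (ordT T) mu r g) ≤
      A * L ^ 3 * (b - a + 1) := by
  have hA0 : 0 ≤ A := by
    have h1 := hΦ 1
    have h2 := hA 1
    norm_num at h2
    linarith
  have hL0 : 0 ≤ L := le_trans (Finset.sum_nonneg fun _ _ => Nat.cast_nonneg _) (hL 0)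
  have h1 : ∑ g ∈ (ordT T).filter (fun g => a < g ∧ g ≤ b),
      (mu g : ℝ) * Φ (kk (ordT T) mu r g) ≤
      ∑ g ∈ (ordT T).filter (fun g => a < g ∧ g ≤ b), (mu g : ℝ) * (A * L ^ 2) := by
    apply Finset.sum_le_sum
    intro g _
    apply mul_le_mul_of_nonneg_left _ (Nat.cast_nonneg _)
    refine (hA _).trans ?_
    have := kk_le hL hr g
    gcongr
  rw [← Finset.sum_mul] at h1
  have h2 := cnt hL a b hab
  have h3 := mul_le_mul_of_nonneg_right h2 (show 0 ≤ A * L ^ 2 by positivity)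
  calc _ ≤ _ := h1
    _ ≤ _ := h3
    _ = _ := by ring

/-- the block bound -/
lemma block {Φ : ℕ → ℝ} {V T U1 U2 P r B : ℝ}
    (hΦ : ∀ k, 0 ≤ Φ k) (hm : Monotone Φ)
    (hU1 : U1 ≤ V + 1) (hU2 : 2 * V - 1 ≤ U2) (hU : 1 ≤ U1) (hP : 3 ≤ P)
    (hr : r ≤ 1 / 2)
    (hB : ∑ g ∈ (ordz U1 U2).filter (fun g => V + P ≤ g ∧ g ≤ 2 * V - P),
      (mu g : ℝ) * Φ (kk (ordz U1 U2) mu r g) ≤ B) :
    ∑ g ∈ (ordT T).filter (fun g => V + P ≤ g ∧ g ≤ 2 * V - P),
      (mu g : ℝ) * Φ (kk (ordT T) mu r g) ≤ B := by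
  have hin : ∀ g ∈ ordT T, V + 1 < g → g ≤ 2 * V - 1 → g ∈ ordz U1 U2 := by
    intro g hg h1 h2
    unfold ordT at hg
    rw [Finset.mem_image] at hg
    obtain ⟨s, hs, rfl⟩ := hg
    rw [mem_Z0] at hs
    unfold ordz
    rw [Finset.mem_image]
    refine ⟨s, ?_, rfl⟩
    rw [H370.mem_Zf H370.good_zeta hU]
    exact ⟨hs.1, hs.2.1, by linarith, by linarith, hs.2.2.2.2⟩
  refine le_trans ?_ hB
  calc ∑ g ∈ (ordT T).filter (fun g => V + P ≤ g ∧ g ≤ 2 * V - P),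
      (mu g : ℝ) * Φ (kk (ordT T) mu r g) ≤
      ∑ g ∈ (ordT T).filter (fun g => V + P ≤ g ∧ g ≤ 2 * V - P),
      (mu g : ℝ) * Φ (kk (ordz U1 U2) mu r g) := by
        apply Finset.sum_le_sum
        intro g hg
        rw [Finset.mem_filter] at hg
        apply mul_le_mul_of_nonneg_left _ (Nat.cast_nonneg _)
        apply hm
        unfold kk
        apply Finset.sum_le_sum_of_subset
        intro g' hg'
        rw [Finset.mem_filter] at hg' ⊢
        have := abs_le.1 (hg'.2.trans hr)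
        exact ⟨hin g' hg'.1 (by linarith [hg.2.1]) (by linarith [hg.2.2]), hg'.2⟩
    _ ≤ _ := by
        apply Finset.sum_le_sum_of_subset_of_nonneg
        · intro g hg
          rw [Finset.mem_filter] at hg ⊢
          exact ⟨hin g hg.1 (by linarith [hg.2.1]) (by linarith [hg.2.2]), hg.2⟩
        · intro g _ _
          exact mul_nonneg (Nat.cast_nonneg _) (hΦ _)

lemma sum_filter_le_add {α : Type*} (Z : Finset α) (p q₁ q₂ : α → Prop) [DecidablePred p]
    [DecidablePred q₁] [DecidablePred q₂] (f : α → ℝ) (hf : ∀ x, 0 ≤ f x)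
    (h : ∀ x, p x → q₁ x ∨ q₂ x) :
    ∑ x ∈ Z.filter p, f x ≤ ∑ x ∈ Z.filter q₁, f x + ∑ x ∈ Z.filter q₂, f x := by
  classical
  have h1 := Finset.sum_union_inter (s₁ := Z.filter q₁) (s₂ := Z.filter q₂) (f := f)
  have h2 : 0 ≤ ∑ x ∈ Z.filter q₁ ∩ Z.filter q₂, f x := Finset.sum_nonneg fun _ _ => hf _
  have h3 : ∑ x ∈ Z.filter p, f x ≤ ∑ x ∈ Z.filter q₁ ∪ Z.filter q₂, f x := by
    apply Finset.sum_le_sum_of_subset_of_nonneg
    · intro x hx
      rw [Finset.mem_filter] at hx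
      rw [Finset.mem_union, Finset.mem_filter, Finset.mem_filter]
      rcases h x hx.2 with h4 | h4
      · exact Or.inl ⟨hx.1, h4⟩
      · exact Or.inr ⟨hx.1, h4⟩
    · intro x _ _
      exact hf x
  linarith

/-- dyadic summation -/
lemma dyadic (Z : Finset ℝ) (f : ℝ → ℝ) (hf : ∀ g, 0 ≤ f g) (c E T0 T : ℝ) (P : ℝ → ℝ)
    (hblock : ∀ V, T0 ≤ V → 2 * V ≤ T →
      ∑ g ∈ Z.filter (fun g => V + P V ≤ g ∧ g ≤ 2 * V - P V), f g ≤ V * c)
    (hend : ∀ V, T0 ≤ V → 2 * V ≤ T → 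
      ∑ g ∈ Z.filter (fun g => V < g ∧ g ≤ V + P V), f g ≤ E ∧
      ∑ g ∈ Z.filter (fun g => 2 * V - P V < g ∧ g ≤ 2 * V), f g ≤ E)
    (hT : 0 < T) (J : ℕ) (hJ : T0 ≤ T / 2 ^ J) :
    ∑ g ∈ Z.filter (fun g => T / 2 ^ J < g ∧ g ≤ T), f g ≤ (T - T / 2 ^ J) * c + 2 * J * E := by
  induction J with
  | zero =>
    have : Z.filter (fun g => T / 2 ^ 0 < g ∧ g ≤ T) = ∅ := by
      rw [Finset.filter_eq_empty_iff]
      intro g _ h
      simp at h
      linarith [h.1, h.2]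
    rw [this]
    simp
  | succ J ih =>
    set V := T / 2 ^ (J + 1) with hV
    have h2V : 2 * V = T / 2 ^ J := by
      rw [hV, pow_succ]; field_simp
    have hV0 : 0 < V := by positivity
    have h1 : T0 ≤ T / 2 ^ J := by rw [← h2V]; linarith
    have h2VT : 2 * V ≤ T := by
      rw [h2V]
      apply div_le_self hT.le
      exact one_le_pow₀ (by norm_num)
    have ih' := ih h1
    rw [← h2V] at ih'
    have e1 := sum_filter_le_add Z (fun g => V < g ∧ g ≤ T) (fun g => V < g ∧ g ≤ 2 * V)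
      (fun g => 2 * V < g ∧ g ≤ T) f hf (fun g hg => by
        rcases le_or_gt g (2 * V) with h | h
        · exact Or.inl ⟨hg.1, h⟩
        · exact Or.inr ⟨h, hg.2⟩)
    have e2 := sum_filter_le_add Z (fun g => V < g ∧ g ≤ 2 * V) (fun g => V < g ∧ g ≤ V + P V)
      (fun g => V + P V ≤ g ∧ g ≤ 2 * V) f hf (fun g hg => by
        rcases le_or_gt g (V + P V) with h | h
        · exact Or.inl ⟨hg.1, h⟩
        · exact Or.inr ⟨h.le, hg.2⟩)
    have e3 := sum_filter_le_add Z (fun g => V + P V ≤ g ∧ g ≤ 2 * V)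
      (fun g => V + P V ≤ g ∧ g ≤ 2 * V - P V)
      (fun g => 2 * V - P V < g ∧ g ≤ 2 * V) f hf (fun g hg => by
        rcases le_or_gt g (2 * V - P V) with h | h
        · exact Or.inl ⟨hg.1, h⟩
        · exact Or.inr ⟨h, hg.2⟩)
    have e4 := hblock V hJ h2VT
    obtain ⟨e5, e6⟩ := hend V hJ h2VT
    push_cast
    linarith

lemma asym (δ B θ : ℝ) (hδ : 0 < δ) (hB : 0 ≤ B) (hθ : θ < 1) : ∀ᶠ T : ℝ in atTop,
    B * (Real.log T) ^ 3 * T ^ θ ≤ T * δ := by
  have h1 := isLittleO_log_rpow_rpow_atTop (3 : ℝ) (show 0 < 1 - θ by linarith)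
  have h2 := h1.bound (show 0 < δ / (B + 1) by positivity)
  filter_upwards [h2, eventually_ge_atTop (1 : ℝ)] with T h3 hT
  have hT0 : 0 < T := by linarith
  have hlog : 0 ≤ Real.log T := Real.log_nonneg hT
  rw [Real.norm_of_nonneg (by positivity), Real.norm_of_nonneg (by positivity)] at h3
  have h4 : Real.log T ^ (3 : ℝ) = (Real.log T) ^ 3 := by
    rw [← Real.rpow_natCast]; norm_num
  rw [h4] at h3
  have h5 : T ^ (1 - θ) * T ^ θ = T := by
    rw [← Real.rpow_add hT0]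
    simp
  have h6 : 0 < T ^ θ := Real.rpow_pos_of_pos hT0 _
  calc B * (Real.log T) ^ 3 * T ^ θ ≤ (B + 1) * (Real.log T) ^ 3 * T ^ θ := by
        gcongr
        linarith
    _ ≤ (B + 1) * (δ / (B + 1) * T ^ (1 - θ)) * T ^ θ := by gcongr
    _ = δ * (T ^ (1 - θ) * T ^ θ) := by field_simp
    _ = T * δ := by rw [h5]; ring

end GlobAux

open GlobAux in
/-- GLOB -/
theorem glob (he : S_EFR) : S_GLOB := by
  intro hRH Φ x K A hx hK hΦ hm hA hBB δ hδ
  obtain ⟨C, T0, hC, hT0, hEF⟩ := he hRH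
  obtain ⟨θ, T1, hθ0, hθ1, hBl⟩ := hBB C (δ / 2) hC (by positivity)
  obtain ⟨L, hL0, hloc⟩ := loc hRH
  have hA0 : 0 ≤ A := by
    have h1 := hΦ 1
    have h2 := hA 1
    norm_num at h2
    linarith
  have hπ := Real.pi_pos
  -- threshold for `V`
  have ev1 : ∀ᶠ V : ℝ in atTop, T0 ≤ V ∧ T1 ≤ V ∧ 10 ≤ V ∧ 3 ≤ V ^ θ := by
    filter_upwards [eventually_ge_atTop T0, eventually_ge_atTop T1, eventually_ge_atTop 10,
      (tendsto_rpow_atTop hθ0).eventually_ge_atTop 3] with V h1 h2 h3 h4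
    exact ⟨h1, h2, h3, h4⟩
  obtain ⟨V0, hV0⟩ := eventually_atTop.1 ev1
  set θ' : ℝ := max θ (1 / 2) with hθ'
  have hθ'1 : θ' < 1 := max_lt hθ1 (by norm_num)
  have ev2 : ∀ᶠ T : ℝ in atTop, V0 ≤ Real.sqrt T ∧ 2 * x ≤ Real.log T ∧ 10 ≤ T ∧
      7 * (A * L ^ 3) * (Real.log T) ^ 3 * T ^ θ' ≤ T * (δ / (4 * Real.pi)) := by
    have hs : Tendsto Real.sqrt atTop atTop := by
      exact Real.tendsto_sqrt_atTop
    filter_upwards [hs.eventually_ge_atTop V0, Real.tendsto_log_atTop.eventually_ge_atTop (2 * x),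
      eventually_ge_atTop 10, asym (δ / (4 * Real.pi)) (7 * (A * L ^ 3)) θ' (by positivity)
        (by positivity) hθ'1] with T h1 h2 h3 h4
    exact ⟨h1, h2, h3, h4⟩
  obtain ⟨T2, hT2⟩ := eventually_atTop.1 ev2
  refine ⟨T2, fun T hT r hr hrT => ?_⟩
  obtain ⟨hsq, hlx, hT10, hfin⟩ := hT2 T hT
  have hTpos : 0 < T := by linarith
  set ℓ := Real.log T with hℓ
  have hℓ1 : 1 ≤ ℓ := by
    rw [hℓ, Real.le_log_iff_exp_le (by linarith)]
    have := Real.exp_one_lt_d9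
    linarith
  have hr2 : r ≤ 1 / 2 := by
    by_contra h
    push Not at h
    nlinarith
  have hLT : ∀ t : ℝ, ∑ g ∈ (ordT T).filter (fun g => |g - t| ≤ 1 / 2), (mu g : ℝ) ≤ L * ℓ :=
    hloc T (by linarith)
  set F : ℝ → ℝ := fun g => (mu g : ℝ) * Φ (kk (ordT T) mu r g) with hF
  have hF0 : ∀ g, 0 ≤ F g := fun g => mul_nonneg (Nat.cast_nonneg _) (hΦ _)
  set c : ℝ := ℓ / (2 * Real.pi) * (K + δ / 2) with hc
  have hc0 : 0 ≤ c := by positivity
  set E : ℝ := A * (L * ℓ) ^ 3 * (T ^ θ + 1) with hE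
  obtain ⟨J, hJ1, hJ2⟩ := exists_nat_pow_near (show (1 : ℝ) ≤ Real.sqrt T by
    rw [Real.one_le_sqrt]; linarith) (show (1 : ℝ) < 2 by norm_num)
  have hsqpos : 0 < Real.sqrt T := Real.sqrt_pos.2 hTpos
  have hsqsq : Real.sqrt T * Real.sqrt T = T := Real.mul_self_sqrt hTpos.le
  have h2J : (0 : ℝ) < 2 ^ J := by positivity
  have hJlow : Real.sqrt T ≤ T / 2 ^ J := by
    rw [le_div_iff₀ h2J]
    nlinarith
  have hJup : T / 2 ^ J ≤ 2 * Real.sqrt T := by
    rw [div_le_iff₀ h2J]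
    rw [pow_succ] at hJ2
    nlinarith
  have hJℓ : (J : ℝ) ≤ ℓ := by
    have h1 : Real.log (2 ^ J) ≤ Real.log (Real.sqrt T) := Real.log_le_log h2J hJ1
    rw [Real.log_pow, Real.log_sqrt hTpos.le] at h1
    have h2 := Real.log_two_gt_d9
    have h3 : (0 : ℝ) ≤ J := Nat.cast_nonneg _
    nlinarith
  have hmain := dyadic (ordT T) F hF0 c E V0 T (fun V => V ^ θ) (by
    intro V hV hVT
    obtain ⟨a1, a2, a3, a4⟩ := hV0 V hV
    obtain ⟨U1, U2, b1, b2, b3, b4, b5⟩ := hEF V a1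
    have hlogV : Real.log V ≤ ℓ := Real.log_le_log (by linarith) (by linarith)
    have hlogV0 : 0 ≤ Real.log V := Real.log_nonneg (by linarith)
    have hrV : r * Real.log V ≤ x := by
      have : r * Real.log V ≤ r * ℓ := by gcongr
      linarith
    have h1 := hBl V a2 (ordz U1 U2) mu b5 r hr hrV
    have h2 := block hΦ hm b2 b3 (by linarith) a4 hr2 h1 (T := T)
    refine h2.trans ?_
    rw [hc]
    have h3 : V * Real.log V / (2 * Real.pi) * (K + δ / 2) ≤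
        V * ℓ / (2 * Real.pi) * (K + δ / 2) := by gcongr
    refine h3.trans (le_of_eq ?_)
    ring) (by
    intro V hV hVT
    obtain ⟨a1, a2, a3, a4⟩ := hV0 V hV
    have hV0' : 0 < V := by linarith
    have hVθ : V ^ θ ≤ T ^ θ := Real.rpow_le_rpow hV0'.le (by linarith) hθ0.le
    constructor
    · have h1 := crude hΦ hA hLT hr2 V (V + V ^ θ) (by linarith)
      refine h1.trans ?_
      rw [hE]
      have : 0 ≤ A * (L * ℓ) ^ 3 := by positivity
      apply mul_le_mul_of_nonneg_left _ this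
      linarith
    · have h1 := crude hΦ hA hLT hr2 (2 * V - V ^ θ) (2 * V) (by linarith)
      refine h1.trans ?_
      rw [hE]
      have : 0 ≤ A * (L * ℓ) ^ 3 := by positivity
      apply mul_le_mul_of_nonneg_left _ this
      linarith) hTpos J (hsq.trans hJlow)
  have hlow := crude hΦ hA hLT hr2 0 (T / 2 ^ J) (by positivity)
  have hsplit : ∑ g ∈ ordT T, F g ≤
      ∑ g ∈ (ordT T).filter (fun g => 0 < g ∧ g ≤ T / 2 ^ J), F g +
      ∑ g ∈ (ordT T).filter (fun g => T / 2 ^ J < g ∧ g ≤ T), F g := by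
    have h1 := sum_filter_le_add (ordT T) (fun g => 0 < g ∧ g ≤ T)
      (fun g => 0 < g ∧ g ≤ T / 2 ^ J) (fun g => T / 2 ^ J < g ∧ g ≤ T) F hF0 (fun g hg => by
        rcases le_or_gt g (T / 2 ^ J) with h | h
        · exact Or.inl ⟨hg.1, h⟩
        · exact Or.inr ⟨h, hg.2⟩)
    have h2 : (ordT T).filter (fun g => 0 < g ∧ g ≤ T) = ordT T := by
      rw [Finset.filter_eq_self]
      intro g hg
      exact mem_ordT hg
    rwa [h2] at h1
  refine hsplit.trans ?_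
  -- final estimate
  have hT1 : 1 ≤ T := by linarith
  have hp1 : T ^ θ ≤ T ^ θ' := Real.rpow_le_rpow_of_exponent_le hT1 (le_max_left _ _)
  have hp2 : Real.sqrt T ≤ T ^ θ' := by
    rw [Real.sqrt_eq_rpow]
    exact Real.rpow_le_rpow_of_exponent_le hT1 (le_max_right _ _)
  have hp3 : 1 ≤ T ^ θ' := Real.one_le_rpow hT1 (le_max_of_le_right (by norm_num))
  set W := T ^ θ' with hW
  have hAL : 0 ≤ A * L ^ 3 := by positivity
  have f1 : A * (L * ℓ) ^ 3 * (T / 2 ^ J - 0 + 1) ≤ A * L ^ 3 * ℓ ^ 3 * (3 * W) := by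
    rw [mul_pow, ← mul_assoc]
    apply mul_le_mul_of_nonneg_left _ (by positivity)
    linarith
  have f2 : 2 * J * E ≤ 2 * ℓ * (A * L ^ 3 * ℓ ^ 3 * (2 * W)) := by
    have e1 : E ≤ A * L ^ 3 * ℓ ^ 3 * (2 * W) := by
      rw [hE, mul_pow, ← mul_assoc]
      apply mul_le_mul_of_nonneg_left _ (by positivity)
      linarith
    have e2 : 0 ≤ E := by
      rw [hE]; positivity
    gcongr
  have f3 : A * L ^ 3 * ℓ ^ 3 * (3 * W) ≤ ℓ * (A * L ^ 3 * ℓ ^ 3 * (3 * W)) := by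
    have : 0 ≤ A * L ^ 3 * ℓ ^ 3 * (3 * W) := by positivity
    exact le_mul_of_one_le_left this hℓ1
  have f4 : ℓ * (7 * (A * L ^ 3) * ℓ ^ 3 * W) ≤ ℓ * (T * (δ / (4 * Real.pi))) := by
    gcongr
  have f5 : (T - T / 2 ^ J) * c ≤ T * c := by
    have : 0 ≤ T / 2 ^ J := by positivity
    exact mul_le_mul_of_nonneg_right (by linarith) hc0
  have f6 : T * c + ℓ * (T * (δ / (4 * Real.pi))) = T * ℓ / (2 * Real.pi) * (K + δ) := by
    rw [hc]
    field_simp
    ring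
  calc _ ≤ A * (L * ℓ) ^ 3 * (T / 2 ^ J - 0 + 1) + ((T - T / 2 ^ J) * c + 2 * J * E) :=
        add_le_add hlow hmain
    _ ≤ _ := by linarith

end TC
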