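import Pool.Agent.W200.HW
import Pool.Agent.W376.TC.Glob

open Complex Filter Topology Set

namespace TC

namespace Gaps

open W200.HW
open SG (ord NZ zmult ZS)

lemma Z0_eq (T : ℝ) : H343.ZSide.Z0 T = (SG.ZS_finite T).toFinset := by
  ext s
  rw [GlobAux.mem_Z0, Set.Finite.mem_toFinset]
  constructor
  · rintro ⟨h1, h2, h3, h4, h5⟩
    exact ⟨h5, h1, h2, h3, h4⟩
  · rintro ⟨h5, h1, h2, h3, h4⟩
    exact ⟨h1, h2, h3, h4, h5⟩

lemma sum_ordT (hRH : RiemannHypothesis) (T : ℝ) (F : ℝ → ℝ) :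
    ∑ g ∈ ordT T, F g = ∑ s ∈ (SG.ZS_finite T).toFinset, F s.im := by
  unfold ordT
  rw [Z0_eq, Finset.sum_image]
  intro s hs s' hs' h
  rw [Finset.mem_coe, Set.Finite.mem_toFinset] at hs hs'
  obtain ⟨h5, h1, h2, h3, h4⟩ := hs
  obtain ⟨h5', h1', h2', h3', h4'⟩ := hs'
  apply Complex.ext
  · rw [GlobAux.re_half hRH h1 h2 h5, GlobAux.re_half hRH h1' h2' h5']
  · exact h

lemma mu_im (hRH : RiemannHypothesis) {T : ℝ} {s : ℂ} (hs : s ∈ (SG.ZS_finite T).toFinset) :
    mu s.im = zmult s := by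
  rw [Set.Finite.mem_toFinset] at hs
  obtain ⟨h5, h1, h2, h3, h4⟩ := hs
  unfold mu
  rw [GlobAux.eq_half hRH h1 h2 h5]
  rfl

lemma kk_im (hRH : RiemannHypothesis) (T r g : ℝ) :
    (kk (ordT T) mu r g : ℝ) = ∑ s' ∈ (SG.ZS_finite T).toFinset,
      if |s'.im - g| ≤ r then (zmult s' : ℝ) else 0 := by
  unfold kk
  push_cast
  rw [Finset.sum_filter, sum_ordT hRH]
  apply Finset.sum_congr rfl
  intro s' hs'
  rw [mu_im hRH hs']

lemma double_sum (hRH : RiemannHypothesis) (T r : ℝ) :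
    ((∑ s ∈ (SG.ZS_finite T).toFinset, ∑ s' ∈ (SG.ZS_finite T).toFinset,
      if |s'.im - s.im| ≤ r then zmult s * zmult s' else 0 : ℕ) : ℝ) =
      ∑ g ∈ ordT T, (mu g : ℝ) * kk (ordT T) mu r g := by
  rw [sum_ordT hRH]
  push_cast
  apply Finset.sum_congr rfl
  intro s hs
  rw [kk_im hRH, mu_im hRH hs, Finset.mul_sum]
  apply Finset.sum_congr rfl
  intro s' _
  split_ifs <;> simp

lemma sum_mu (hRH : RiemannHypothesis) (T : ℝ) : ∑ g ∈ ordT T, (mu g : ℝ) = NZ T := by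
  rw [sum_ordT hRH, SG.NZ_eq]
  push_cast
  apply Finset.sum_congr rfl
  intro s hs
  rw [mu_im hRH hs]

lemma sum_pred (hRH : RiemannHypothesis) (T r : ℝ) (hr : 0 ≤ r) :
    ∑ g ∈ ordT T, (mu g : ℝ) * ((kk (ordT T) mu r g - 1 : ℕ) : ℝ) =
      ∑ g ∈ ordT T, (mu g : ℝ) * kk (ordT T) mu r g - NZ T := by
  rw [← sum_mu hRH, ← Finset.sum_sub_distrib]
  apply Finset.sum_congr rfl
  intro g hg
  have h1 : 1 ≤ kk (ordT T) mu r g := by
    have h2 : 1 ≤ mu g := by
      unfold ordT at hg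
      rw [Finset.mem_image] at hg
      obtain ⟨s, hs, rfl⟩ := hg
      rw [Z0_eq] at hs
      rw [mu_im hRH hs]
      rw [Set.Finite.mem_toFinset] at hs
      exact SG.zmult_pos hs.2.2.2.1 hs.1
    refine h2.trans ?_
    unfold kk
    apply Finset.single_le_sum (f := mu) (fun _ _ => Nat.zero_le _)
    rw [Finset.mem_filter]
    exact ⟨hg, by rw [sub_self, abs_zero]; exact hr⟩
  rw [Nat.cast_sub h1]
  push_cast
  ring

/-- the close consecutive pairs are counted twice -/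
lemma count (hRH : RiemannHypothesis) (T r : ℝ) (hr : 0 ≤ r) (N : ℕ) (hN : ord (N + 1) ≤ T)
    (S : Finset ℕ) (hS : ∀ n ∈ S, 1 ≤ n ∧ n ≤ N ∧ ord (n + 1) - ord n ≤ r) :
    2 * (S.card : ℝ) ≤ ∑ g ∈ ordT T, (mu g : ℝ) * ((kk (ordT T) mu r g - 1 : ℕ) : ℝ) := by
  classical
  rw [sum_pred hRH T r hr, ← double_sum hRH]
  have h := pairs_le hRH T (fun x y => |y - x| ≤ r)
  set P := (Ix T ×ˢ Ix T).filter (fun p => |ord p.2 - ord p.1| ≤ r) with hP
  have hIx : ∀ n ∈ S, n ∈ Ix T ∧ n + 1 ∈ Ix T := by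
    intro n hn
    obtain ⟨h1, h2, h3⟩ := hS n hn
    rw [mem_Ix, mem_Ix]
    have h4 : ord (n + 1) ≤ ord (N + 1) := SG.ord_mono (by omega) (by omega)
    have h5 : ord n ≤ ord (n + 1) := SG.ord_mono h1 (by omega)
    exact ⟨⟨h1, by linarith⟩, by omega, by linarith⟩
  have habs : ∀ n ∈ S, |ord (n + 1) - ord n| ≤ r := by
    intro n hn
    obtain ⟨h1, h2, h3⟩ := hS n hn
    have h5 : ord n ≤ ord (n + 1) := SG.ord_mono h1 (by omega)
    rw [abs_of_nonneg (by linarith)]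
    exact h3
  have hsub : ((Ix T).image (fun n => (n, n))) ∪ (S.image (fun n => (n, n + 1)) ∪
      S.image (fun n => (n + 1, n))) ⊆ P := by
    intro p hp
    rw [Finset.mem_union, Finset.mem_union, Finset.mem_image, Finset.mem_image,
      Finset.mem_image] at hp
    rw [hP, Finset.mem_filter, Finset.mem_product]
    rcases hp with ⟨n, hn, rfl⟩ | ⟨n, hn, rfl⟩ | ⟨n, hn, rfl⟩
    · exact ⟨⟨hn, hn⟩, by simpa using hr⟩
    · exact ⟨hIx n hn, habs n hn⟩
    · exact ⟨⟨(hIx n hn).2, (hIx n hn).1⟩, by rw [abs_sub_comm]; exact habs n hn⟩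
  have hcard := Finset.card_le_card hsub
  rw [Finset.card_union_of_disjoint, Finset.card_union_of_disjoint,
    Finset.card_image_of_injective _ (fun a b h => (Prod.mk.inj h).1),
    Finset.card_image_of_injective _ (fun a b h => (Prod.mk.inj h).1),
    Finset.card_image_of_injective _ (fun a b h => (Prod.mk.inj h).2), card_Ix] at hcard
  · have h1 := hcard.trans h
    have h2 : ((NZ T + (S.card + S.card) : ℕ) : ℝ) ≤
        ((∑ s ∈ (SG.ZS_finite T).toFinset, ∑ s' ∈ (SG.ZS_finite T).toFinset,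
          if |s'.im - s.im| ≤ r then zmult s * zmult s' else 0 : ℕ) : ℝ) := by
      exact_mod_cast h1
    push_cast at h2 ⊢
    linarith
  · rw [Finset.disjoint_left]
    intro p hp hp'
    rw [Finset.mem_image] at hp hp'
    obtain ⟨n, -, rfl⟩ := hp
    obtain ⟨m, -, hm⟩ := hp'
    have e1 := (Prod.mk.inj hm).1
    have e2 := (Prod.mk.inj hm).2
    omega
  · rw [Finset.disjoint_left]
    intro p hp hp'
    rw [Finset.mem_image] at hp
    rw [Finset.mem_union, Finset.mem_image, Finset.mem_image] at hp'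
    obtain ⟨n, -, rfl⟩ := hp
    rcases hp' with ⟨m, -, hm⟩ | ⟨m, -, hm⟩
    · have e1 := (Prod.mk.inj hm).1
      have e2 := (Prod.mk.inj hm).2
      omega
    · have e1 := (Prod.mk.inj hm).1
      have e2 := (Prod.mk.inj hm).2
      omega

/-- lower bound for the index -/
lemma N_lower (ε : ℝ) (hε : 0 < ε) : ∀ᶠ N : ℕ in atTop,
    (1 - ε) * (ord (N + 1) / (2 * Real.pi) * Real.log (ord (N + 1))) ≤ N := by
  obtain ⟨T0, hT0⟩ := NZ_lower ε hε
  have hpi := Real.pi_pos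
  have ht : Tendsto (fun N : ℕ => ord (N + 1)) atTop atTop :=
    SG.ord_tendsto.comp (tendsto_add_atTop_nat 1)
  filter_upwards [ht.eventually_gt_atTop (max T0 1)] with N hN
  have h0 : T0 < ord (N + 1) := (le_max_left _ _).trans_lt hN
  have h1 : 1 < ord (N + 1) := (le_max_right _ _).trans_lt hN
  set T := ord (N + 1) with hT
  have hc : ContinuousAt (fun t : ℝ => (1 - ε) * (t / (2 * Real.pi) * Real.log t)) T := by
    have : T ≠ 0 := by linarith
    fun_prop (disch := assumption)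
  have hc' : Tendsto (fun t : ℝ => (1 - ε) * (t / (2 * Real.pi) * Real.log t)) (𝓝[<] T)
      (𝓝 ((1 - ε) * (T / (2 * Real.pi) * Real.log T))) := hc.tendsto.mono_left nhdsWithin_le_nhds
  refine le_of_tendsto hc' ?_
  have e1 : ∀ᶠ t in 𝓝[<] T, t < T := self_mem_nhdsWithin
  have e2 : ∀ᶠ t in 𝓝[<] T, T0 < t := nhdsWithin_le_nhds (lt_mem_nhds h0)
  filter_upwards [e1, e2] with t ht1 ht2
  refine (hT0 t ht2.le).trans ?_
  have h2 : ¬ (N + 1 ≤ NZ t) := by
    rw [← SG.ord_le_iff (by omega)]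
    push Not
    exact ht1
  have h3 : NZ t ≤ N := by omega
  exact_mod_cast h3

lemma small_power (C η ε : ℝ) (hC : 0 ≤ C) (hη : 0 < η) (hε : 0 < ε) : ∀ᶠ T : ℝ in atTop,
    C * (T ^ (1 - η) * Real.log T) ≤ ε * (T * Real.log T) := by
  have h1 : Tendsto (fun T : ℝ => T ^ (-η)) atTop (𝓝 0) := tendsto_rpow_neg_atTop hη
  have h2 : ∀ᶠ T : ℝ in atTop, T ^ (-η) < ε / (C + 1) :=
    h1.eventually (gt_mem_nhds (by positivity))
  filter_upwards [h2, eventually_ge_atTop 1] with T hT hT1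
  have hT0 : 0 < T := by linarith
  have hl : 0 ≤ Real.log T := Real.log_nonneg hT1
  have e : T ^ (1 - η) = T * T ^ (-η) := by
    rw [show (1 - η) = 1 + (-η) by ring, Real.rpow_add hT0, Real.rpow_one]
  have hp : 0 < T ^ (-η) := Real.rpow_pos_of_pos hT0 _
  rw [e]
  calc C * (T * T ^ (-η) * Real.log T) ≤ (C + 1) * (T * T ^ (-η) * Real.log T) := by
        gcongr
        linarith
    _ ≤ (C + 1) * (T * (ε / (C + 1)) * Real.log T) := by gcongr
    _ = ε * (T * Real.log T) := by field_simp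

/-- the main counting result -/
theorem gaps_main (hRH : RiemannHypothesis) (x K : ℝ) (hx : 0 ≤ x) (hK : 0 ≤ K)
    (hcp : ∃ T1 : ℝ, ∀ T : ℝ, T1 ≤ T → ∀ r : ℝ, 0 ≤ r → r * Real.log T ≤ x →
      ∑ g ∈ ordT T, (mu g : ℝ) * ((kk (ordT T) mu r g - 1 : ℕ) : ℝ) ≤
        T * Real.log T / (2 * Real.pi) * K)
    (a η : ℝ) (hη : 0 < η) (hη1 : η < 1) (hax : 2 * Real.pi * a ≤ (1 - η) * x)
    (ε : ℝ) (hε : 0 < ε) : ∀ᶠ N : ℕ in atTop,
    ({n : ℕ | 1 ≤ n ∧ n ≤ N ∧
      (ord (n + 1) - ord n) / (2 * Real.pi) * Real.log (ord n / (2 * Real.pi)) ≤ a}.ncard : ℝ) ≤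
      (K / 2 + ε) * N := by
  classical
  obtain ⟨T1, hT1⟩ := hcp
  obtain ⟨C, T2, hC, hT2, hup⟩ := SP.PosProp.NZ_up
  have hpi := Real.pi_pos
  set ε' : ℝ := min (1 / 2) (ε / (2 * (K + 1))) with hε'
  have hε'0 : 0 < ε' := lt_min (by norm_num) (by positivity)
  have hε'1 : ε' ≤ 1 / 2 := min_le_left _ _
  have hε'2 : K * ε' ≤ ε / 2 := by
    have h1 : ε' ≤ ε / (2 * (K + 1)) := min_le_right _ _
    calc K * ε' ≤ (K + 1) * (ε / (2 * (K + 1))) := by
          apply mul_le_mul (by linarith) h1 hε'0.le (by linarith)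
      _ = ε / 2 := by field_simp
  have ht : Tendsto (fun N : ℕ => ord (N + 1)) atTop atTop :=
    SG.ord_tendsto.comp (tendsto_add_atTop_nat 1)
  have evT : ∀ᶠ T : ℝ in atTop, T1 ≤ T ∧ 1 < T ∧ 2 * T2 ≤ T ^ (1 - η / 2) ∧
      C * (T ^ (1 - η / 2) * Real.log T) ≤ (ε / 2 * (1 / 2) / (2 * Real.pi)) * (T * Real.log T) ∧
      Real.log (2 * Real.pi) ≤ η / 2 * Real.log T := by
    filter_upwards [eventually_ge_atTop T1, eventually_gt_atTop 1,
      (tendsto_rpow_atTop (show 0 < 1 - η / 2 by linarith)).eventually_ge_atTop (2 * T2),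
      small_power C (η / 2) (ε / 2 * (1 / 2) / (2 * Real.pi)) hC.le (by linarith) (by positivity),
      (Real.tendsto_log_atTop.const_mul_atTop (show 0 < η / 2 by linarith)).eventually_ge_atTop
        (Real.log (2 * Real.pi))] with T h1 h2 h3 h4 h5
    exact ⟨h1, h2, h3, h4, h5⟩
  filter_upwards [ht.eventually evT, N_lower ε' hε'0] with N hN hNl
  set T := ord (N + 1) with hT
  obtain ⟨g1, g2, g3, g4, g5⟩ := hN
  have hT0 : 0 < T := by linarith
  have hl : 0 < Real.log T := Real.log_pos g2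
  set L := Real.log T with hL
  set W := T ^ (1 - η / 2) with hW
  have hW0 : 0 < W := Real.rpow_pos_of_pos hT0 _
  have hWT : W ≤ T := by
    calc W ≤ T ^ (1 : ℝ) := Real.rpow_le_rpow_of_exponent_le g2.le (by linarith)
      _ = T := Real.rpow_one T
  set Q := (Finset.Icc 1 N).filter (fun n => (ord (n + 1) - ord n) / (2 * Real.pi) *
    Real.log (ord n / (2 * Real.pi)) ≤ a) with hQ
  have hset : {n : ℕ | 1 ≤ n ∧ n ≤ N ∧
      (ord (n + 1) - ord n) / (2 * Real.pi) * Real.log (ord n / (2 * Real.pi)) ≤ a} =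
      (Q : Set ℕ) := by
    ext n
    rw [hQ, Finset.coe_filter]
    simp only [Set.mem_ofPred_eq, Finset.mem_Icc]
    tauto
  rw [hset, Set.ncard_coe_finset]
  set S := Q.filter (fun n => W < ord n) with hS
  have hsplit : Q.card ≤ S.card + NZ W := by
    have h1 : Q ⊆ S ∪ Ix W := by
      intro n hn
      rw [Finset.mem_union]
      by_cases h : W < ord n
      · left
        rw [hS, Finset.mem_filter]
        exact ⟨hn, h⟩
      · right
        rw [mem_Ix]
        rw [hQ, Finset.mem_filter, Finset.mem_Icc] at hn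
        exact ⟨hn.1.1, not_lt.1 h⟩
    have h2 := (Finset.card_le_card h1).trans (Finset.card_union_le _ _)
    rwa [card_Ix] at h2
  have hNZW : (NZ W : ℝ) ≤ C * (W * L) := by
    have h1 := hup (W / 2) (by linarith)
    rw [show 2 * (W / 2) = W by ring] at h1
    refine h1.trans ?_
    have h2 : Real.log (W / 2) ≤ L := Real.log_le_log (by linarith) (by linarith)
    have h3 : 0 < W / 2 := by linarith
    have h4 : W / 2 ≤ W := by linarith
    have h5 : W / 2 * Real.log (W / 2) ≤ W / 2 * L := by gcongr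
    have h6 : W / 2 * L ≤ W * L := by gcongr
    exact mul_le_mul_of_nonneg_left (h5.trans h6) hC.le
  set r := x / L with hr
  have hr0 : 0 ≤ r := by positivity
  have hrL : r * L = x := by rw [hr]; field_simp
  have hSr : ∀ n ∈ S, 1 ≤ n ∧ n ≤ N ∧ ord (n + 1) - ord n ≤ r := by
    intro n hn
    rw [hS, Finset.mem_filter, hQ, Finset.mem_filter, Finset.mem_Icc] at hn
    obtain ⟨⟨⟨h1, h2⟩, h3⟩, h4⟩ := hn
    refine ⟨h1, h2, ?_⟩
    have hpos : 0 < ord n := SG.ord_pos h1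
    have h5 : ord n ≤ ord (n + 1) := SG.ord_mono h1 (by omega)
    have h6 : (1 - η) * L ≤ Real.log (ord n / (2 * Real.pi)) := by
      rw [Real.log_div hpos.ne' (by positivity)]
      have h7 : Real.log W ≤ Real.log (ord n) := Real.log_le_log hW0 h4.le
      rw [hW, Real.log_rpow hT0] at h7
      nlinarith
    have h8 : (ord (n + 1) - ord n) * ((1 - η) * L) ≤ 2 * Real.pi * a := by
      have h9 : (ord (n + 1) - ord n) * Real.log (ord n / (2 * Real.pi)) ≤ 2 * Real.pi * a := by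
        have e : (ord (n + 1) - ord n) / (2 * Real.pi) * Real.log (ord n / (2 * Real.pi)) =
            (ord (n + 1) - ord n) * Real.log (ord n / (2 * Real.pi)) / (2 * Real.pi) := by ring
        rw [e, div_le_iff₀ (by positivity)] at h3
        linarith
      exact (mul_le_mul_of_nonneg_left h6 (by linarith)).trans h9
    rw [hr, le_div_iff₀ hl]
    have h10 : (1 - η) * ((ord (n + 1) - ord n) * L) ≤ (1 - η) * x := by
      calc (1 - η) * ((ord (n + 1) - ord n) * L) = (ord (n + 1) - ord n) * ((1 - η) * L) := by ring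
        _ ≤ 2 * Real.pi * a := h8
        _ ≤ (1 - η) * x := hax
    exact le_of_mul_le_mul_left h10 (by linarith)
  have h1 := count hRH T r hr0 N le_rfl S hSr
  have h2 := hT1 T g1 r hr0 hrL.le
  have h3 : (Q.card : ℝ) ≤ S.card + NZ W := by exact_mod_cast hsplit
  set Y := T / (2 * Real.pi) * L with hY
  have hY0 : 0 ≤ Y := by positivity
  have hYe : T * L / (2 * Real.pi) = Y := by rw [hY]; ring
  rw [hYe] at h2
  have h4 : (ε / 2 * (1 / 2) / (2 * Real.pi)) * (T * L) = ε / 2 * (1 / 2 * Y) := by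
    rw [hY]; ring
  rw [h4] at g4
  have h5 : 1 / 2 * Y ≤ N := by
    refine le_trans ?_ hNl
    apply mul_le_mul_of_nonneg_right _ hY0
    linarith
  have h6 : Y * K ≤ K * N + 2 * (K * ε') * N := by
    have h7 : Y ≤ (1 + 2 * ε') * N := by
      have h8 : (1 + 2 * ε') * ((1 - ε') * Y) ≤ (1 + 2 * ε') * N := by
        apply mul_le_mul_of_nonneg_left hNl (by linarith)
      have h9 : Y ≤ (1 + 2 * ε') * ((1 - ε') * Y) := by
        have : 0 ≤ ε' * (1 - 2 * ε') * Y := by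
          apply mul_nonneg (mul_nonneg hε'0.le (by linarith)) hY0
        nlinarith
      linarith
    calc Y * K ≤ (1 + 2 * ε') * N * K := mul_le_mul_of_nonneg_right h7 hK
      _ = K * N + 2 * (K * ε') * N := by ring
  have hN0 : (0 : ℝ) ≤ N := Nat.cast_nonneg _
  have h10 : (K * ε') * N ≤ ε / 2 * N := mul_le_mul_of_nonneg_right hε'2 hN0
  have h11 : ε / 2 * (1 / 2 * Y) ≤ ε / 2 * N := by gcongr
  linarith

end Gaps

end TC
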