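import Pool.Agent.W198.TC.Basic

set_option autoImplicit false

/-!
Correlation of the window coefficients with the zero density (project TC of helper198, SUM2).
-/

open Filter Topology Set MeasureTheory

namespace TC

namespace Sum2

lemma gs_tail {x : ℝ} (hx : 0 ≤ x) : ∫ z in Ioi x, gs z ≤ Real.exp (-x ^ 2 / 2) := by
  have hsh : Integrable (fun z => Real.exp (-x ^ 2 / 2) * gs (z - x)) :=
    (gs_integrable.comp_sub_right x).const_mul _
  calc ∫ z in Ioi x, gs z ≤ ∫ z in Ioi x, Real.exp (-x ^ 2 / 2) * gs (z - x) := by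
        refine setIntegral_mono_on gs_integrable.integrableOn hsh.integrableOn measurableSet_Ioi ?_
        intro z hz
        have hz' : x < z := hz
        unfold gs
        rw [← mul_div_assoc, ← Real.exp_add]
        apply div_le_div_of_nonneg_right _ (Real.sqrt_nonneg _)
        apply Real.exp_le_exp.2
        nlinarith
    _ ≤ ∫ z, Real.exp (-x ^ 2 / 2) * gs (z - x) := by
        refine setIntegral_le_integral hsh (Eventually.of_forall fun z => ?_)
        exact mul_nonneg (Real.exp_pos _).le (gs_nonneg _)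
    _ = Real.exp (-x ^ 2 / 2) := by
        rw [integral_const_mul, integral_sub_right_eq_self, gs_integral, mul_one]

lemma W_eq (L ℓ : ℝ) : (∫ u in (0 : ℝ)..ℓ, gs (u - L)) = ∫ u in (-L)..(ℓ - L), gs u := by
  rw [intervalIntegral.integral_comp_sub_right]
  simp

lemma W_nonneg {L ℓ : ℝ} (h : 0 ≤ ℓ) : 0 ≤ ∫ u in (0 : ℝ)..ℓ, gs (u - L) :=
  intervalIntegral.integral_nonneg h fun _ _ => gs_nonneg _

lemma W_tail {L ℓ : ℝ} (hL : 0 ≤ L) (hl : L ≤ ℓ) :
    1 - (∫ u in (0 : ℝ)..ℓ, gs (u - L)) ≤ Real.exp (-L ^ 2 / 2) + Real.exp (-(ℓ - L) ^ 2 / 2) := by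
  rw [W_eq]
  have h1 : (∫ z in Iic (-L), gs z) + ∫ z in Ioi (-L), gs z = 1 := by
    rw [intervalIntegral.integral_Iic_add_Ioi gs_integrable.integrableOn
      gs_integrable.integrableOn, gs_integral]
  have h2 : (∫ z in Ioi (-L), gs z) = (∫ u in (-L)..(ℓ - L), gs u) + ∫ z in Ioi (ℓ - L), gs z := by
    rw [intervalIntegral.integral_of_le (by linarith), ← setIntegral_union]
    · rw [Ioc_union_Ioi_eq_Ioi (by linarith)]
    · rw [Set.disjoint_left]
      intro z hz hz'
      exact absurd hz.2 (not_le.2 hz')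
    · exact measurableSet_Ioi
    · exact gs_integrable.integrableOn
    · exact gs_integrable.integrableOn
  have h3 : (∫ z in Iic (-L), gs z) = ∫ z in Ioi L, gs z := by
    have h := integral_comp_neg_Iic (-L) gs
    rw [neg_neg] at h
    rw [← h]
    refine integral_congr_ae (Eventually.of_forall fun z => ?_)
    exact (gs_even z).symm
  have h4 := gs_tail hL
  have h5 := gs_tail (x := ℓ - L) (by linarith)
  linarith

lemma lam_sq_le (n : ℕ) : lam n ^ 2 ≤ 4 := by
  have h1 := lam_le_two n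
  have h2 := lam_nonneg n
  nlinarith

lemma exp_log_le {n : ℕ} (hn : 1 ≤ n) :
    Real.exp (-(Real.log n) ^ 2 / 2) ≤ Real.exp 2 * (1 / (n : ℝ) ^ 2) := by
  have hn0 : (0 : ℝ) < n := by exact_mod_cast hn
  have e : Real.exp 2 * (1 / (n : ℝ) ^ 2) = Real.exp (2 - 2 * Real.log n) := by
    rw [Real.exp_sub, show 2 * Real.log n = Real.log ((n : ℝ) ^ 2) by rw [Real.log_pow]; norm_num,
      Real.exp_log (by positivity)]
    ring
  rw [e]
  apply Real.exp_le_exp.2
  nlinarith [sq_nonneg (Real.log n - 2)]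

lemma sq_summable : Summable (fun n : ℕ => 1 / (n : ℝ) ^ 2) :=
  Real.summable_one_div_nat_pow.2 (by norm_num)

lemma K1_summable : Summable (fun n : ℕ => lam n ^ 2 * Real.exp (-(Real.log n) ^ 2 / 2)) := by
  refine Summable.of_nonneg_of_le (fun n => by positivity) (fun n => ?_)
    (sq_summable.mul_left (4 * Real.exp 2))
  rcases Nat.eq_zero_or_pos n with rfl | hn
  · rw [lam_zero]
    simp
  · calc lam n ^ 2 * Real.exp (-(Real.log n) ^ 2 / 2)
        ≤ 4 * (Real.exp 2 * (1 / (n : ℝ) ^ 2)) :=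
          mul_le_mul (lam_sq_le n) (exp_log_le hn) (Real.exp_pos _).le (by norm_num)
      _ = _ := by ring

/-- the pointwise bound -/
lemma rem_bound (hs : ∀ y, Summable (fun n : ℕ => (lam n) ^ 2 * gs (y - Real.log n)))
    {b ρ M ℓ y : ℝ} {N : ℕ} (hb1 : b ≤ 1) (hρ : 0 < ρ) (hM : 0 < M)
    (hℓ : (1 + ρ) * M ≤ ℓ) (hN : (b + ρ) * M ≤ Real.log (N + 1)) (hy : y ≤ b * M) :
    0 ≤ KK y - ∑ n ∈ Finset.Icc 2 N, lam n ^ 2 * (∫ u in (0 : ℝ)..ℓ, gs (u - Real.log n)) *
      gs (y - Real.log n) ∧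
    KK y - ∑ n ∈ Finset.Icc 2 N, lam n ^ 2 * (∫ u in (0 : ℝ)..ℓ, gs (u - Real.log n)) *
      gs (y - Real.log n) ≤
      (∑' n : ℕ, lam n ^ 2 * Real.exp (-(Real.log n) ^ 2 / 2)) +
      Real.exp (-(ρ ^ 2 * M ^ 2 / 8)) * KK y +
      4 * Real.exp 4 * (∑' n : ℕ, 1 / (n : ℝ) ^ 2) * Real.exp (2 * M - ρ ^ 2 * M ^ 2 / 16) := by
  classical
  have hℓ0 : 0 ≤ ℓ := le_trans (by positivity) hℓ
  set W : ℕ → ℝ := fun n => ∫ u in (0 : ℝ)..ℓ, gs (u - Real.log n) with hW
  have hW0 : ∀ n, 0 ≤ W n := fun n => W_nonneg hℓ0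
  have hW1 : ∀ n, W n ≤ 1 := by
    intro n
    have h1 : W n ≤ ∫ u, gs (u - Real.log n) := by
      rw [hW]
      simp only
      rw [intervalIntegral.integral_of_le hℓ0]
      exact setIntegral_le_integral (gs_integrable.comp_sub_right _)
        (Eventually.of_forall fun z => gs_nonneg _)
    rw [integral_sub_right_eq_self, gs_integral] at h1
    exact h1
  set V : ℕ → ℝ := fun n => if n ∈ Finset.Icc 2 N then W n else 0 with hV
  have hV0 : ∀ n, 0 ≤ V n := fun n => by
    rw [hV]; simp only; split_ifs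
    · exact hW0 n
    · exact le_rfl
  have hV1 : ∀ n, V n ≤ 1 := fun n => by
    rw [hV]; simp only; split_ifs
    · exact hW1 n
    · exact zero_le_one
  have hsum1 : HasSum (fun n : ℕ => lam n ^ 2 * gs (y - Real.log n)) (KK y) := (hs y).hasSum
  have hsum2 : HasSum (fun n : ℕ => lam n ^ 2 * V n * gs (y - Real.log n))
      (∑ n ∈ Finset.Icc 2 N, lam n ^ 2 * W n * gs (y - Real.log n)) := by
    have h : HasSum (fun n : ℕ => lam n ^ 2 * V n * gs (y - Real.log n))
        (∑ n ∈ Finset.Icc 2 N, lam n ^ 2 * V n * gs (y - Real.log n)) := by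
      apply hasSum_sum_of_ne_finset_zero
      intro n hn
      rw [hV]
      simp only
      rw [if_neg hn]
      ring
    have e : ∑ n ∈ Finset.Icc 2 N, lam n ^ 2 * V n * gs (y - Real.log n) =
        ∑ n ∈ Finset.Icc 2 N, lam n ^ 2 * W n * gs (y - Real.log n) := by
      refine Finset.sum_congr rfl fun n hn => ?_
      rw [hV]
      simp only
      rw [if_pos hn]
    rw [e] at h
    exact h
  have hdiff := hsum1.sub hsum2
  constructor
  · refine hdiff.nonneg fun n => ?_
    have h1 : lam n ^ 2 * gs (y - Real.log n) - lam n ^ 2 * V n * gs (y - Real.log n) =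
        lam n ^ 2 * gs (y - Real.log n) * (1 - V n) := by ring
    rw [h1]
    exact mul_nonneg (mul_nonneg (sq_nonneg _) (gs_nonneg _)) (by linarith [hV1 n])
  · have hR : HasSum (fun n : ℕ => lam n ^ 2 * Real.exp (-(Real.log n) ^ 2 / 2) +
        Real.exp (-(ρ ^ 2 * M ^ 2 / 8)) * (lam n ^ 2 * gs (y - Real.log n)) +
        4 * Real.exp 4 * Real.exp (2 * M - ρ ^ 2 * M ^ 2 / 16) * (1 / (n : ℝ) ^ 2))
        ((∑' n : ℕ, lam n ^ 2 * Real.exp (-(Real.log n) ^ 2 / 2)) +
        Real.exp (-(ρ ^ 2 * M ^ 2 / 8)) * KK y +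
        4 * Real.exp 4 * Real.exp (2 * M - ρ ^ 2 * M ^ 2 / 16) * (∑' n : ℕ, 1 / (n : ℝ) ^ 2)) :=
      (K1_summable.hasSum.add (hsum1.mul_left _)).add (sq_summable.hasSum.mul_left _)
    have hle := hasSum_le (fun n => ?_) hdiff hR
    · refine hle.trans (le_of_eq ?_)
      ring
    · have h1 : lam n ^ 2 * gs (y - Real.log n) - lam n ^ 2 * V n * gs (y - Real.log n) =
          lam n ^ 2 * gs (y - Real.log n) * (1 - V n) := by ring
      rw [h1]
      have p1 : 0 ≤ lam n ^ 2 * Real.exp (-(Real.log n) ^ 2 / 2) := by positivity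
      have p2 : 0 ≤ Real.exp (-(ρ ^ 2 * M ^ 2 / 8)) * (lam n ^ 2 * gs (y - Real.log n)) :=
        mul_nonneg (Real.exp_pos _).le (mul_nonneg (sq_nonneg _) (gs_nonneg _))
      have p3 : 0 ≤ 4 * Real.exp 4 * Real.exp (2 * M - ρ ^ 2 * M ^ 2 / 16) * (1 / (n : ℝ) ^ 2) := by
        positivity
      have hg0 := gs_nonneg (y - Real.log n)
      have hg1 := gs_le_one (y - Real.log n)
      rcases Nat.lt_or_ge n 2 with hn2 | hn2
      · have hl : lam n = 0 := by
          interval_cases n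
          · exact lam_zero
          · exact lam_one
        rw [hl] at p1 p2 ⊢
        have : (0 : ℝ) ^ 2 * gs (y - Real.log n) * (1 - V n) = 0 := by ring
        rw [this]
        linarith
      have hn0 : (0 : ℝ) < n := by
        have : 0 < n := by omega
        exact_mod_cast this
      have hL0 : 0 ≤ Real.log n := Real.log_natCast_nonneg n
      by_cases hcase : n ≤ N ∧ Real.log n ≤ (1 + ρ / 2) * M
      · -- main range
        have hVW : V n = W n := by
          rw [hV]
          simp only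
          rw [if_pos (Finset.mem_Icc.2 ⟨hn2, hcase.1⟩)]
        have hLl : ρ * M / 2 ≤ ℓ - Real.log n := by nlinarith [hcase.2]
        have hρM : 0 < ρ * M := by positivity
        have ht := W_tail (L := Real.log n) (ℓ := ℓ) hL0 (by linarith)
        have h2 : Real.exp (-(ℓ - Real.log n) ^ 2 / 2) ≤ Real.exp (-(ρ ^ 2 * M ^ 2 / 8)) := by
          apply Real.exp_le_exp.2
          nlinarith
        have h3 : 1 - V n ≤ Real.exp (-(Real.log n) ^ 2 / 2) + Real.exp (-(ρ ^ 2 * M ^ 2 / 8)) := by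
          rw [hVW, hW]
          simp only
          linarith
        have h4 : lam n ^ 2 * gs (y - Real.log n) * (1 - V n) ≤ lam n ^ 2 * gs (y - Real.log n) *
            (Real.exp (-(Real.log n) ^ 2 / 2) + Real.exp (-(ρ ^ 2 * M ^ 2 / 8))) :=
          mul_le_mul_of_nonneg_left h3 (mul_nonneg (sq_nonneg _) hg0)
        have h5 : lam n ^ 2 * gs (y - Real.log n) * Real.exp (-(Real.log n) ^ 2 / 2) ≤
            lam n ^ 2 * 1 * Real.exp (-(Real.log n) ^ 2 / 2) := by
          apply mul_le_mul_of_nonneg_right _ (Real.exp_pos _).le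
          exact mul_le_mul_of_nonneg_left hg1 (sq_nonneg _)
        have h6 : lam n ^ 2 * gs (y - Real.log n) *
            (Real.exp (-(Real.log n) ^ 2 / 2) + Real.exp (-(ρ ^ 2 * M ^ 2 / 8))) =
            lam n ^ 2 * gs (y - Real.log n) * Real.exp (-(Real.log n) ^ 2 / 2) +
            Real.exp (-(ρ ^ 2 * M ^ 2 / 8)) * (lam n ^ 2 * gs (y - Real.log n)) := by ring
        rw [h6] at h4
        linarith
      · -- far range
        have hfar : (b + ρ / 2) * M ≤ Real.log n := by
          rcases not_and_or.1 hcase with h | h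
          · have h1 : N + 1 ≤ n := by omega
            have h2 : Real.log ((N : ℝ) + 1) ≤ Real.log n := by
              apply Real.log_le_log (by positivity)
              exact_mod_cast h1
            have h3 : (b + ρ / 2) * M ≤ (b + ρ) * M := mul_le_mul_of_nonneg_right (by linarith) hM.le
            linarith
          · push Not at h
            have h3 : (b + ρ / 2) * M ≤ (1 + ρ / 2) * M :=
              mul_le_mul_of_nonneg_right (by linarith) hM.le
            linarith
        set L := Real.log n with hLdef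
        have hd : ρ * M / 2 ≤ L - y := by nlinarith
        have hρM : 0 < ρ * M := by positivity
        have hyM : y ≤ M := by nlinarith
        have hexp : gs (y - L) ≤ Real.exp 4 * Real.exp (2 * M - ρ ^ 2 * M ^ 2 / 16) *
            (1 / (n : ℝ) ^ 2) := by
          have e : Real.exp 4 * Real.exp (2 * M - ρ ^ 2 * M ^ 2 / 16) * (1 / (n : ℝ) ^ 2) =
              Real.exp (4 + (2 * M - ρ ^ 2 * M ^ 2 / 16) - 2 * L) := by
            rw [Real.exp_sub (4 + (2 * M - ρ ^ 2 * M ^ 2 / 16)) (2 * L), Real.exp_add 4,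
              show 2 * L = Real.log ((n : ℝ) ^ 2) by rw [Real.log_pow]; norm_num; rfl,
              Real.exp_log (by positivity)]
            ring
          rw [e]
          refine (gs_le_exp _).trans (Real.exp_le_exp.2 ?_)
          have q1 : ρ ^ 2 * M ^ 2 / 16 ≤ (y - L) ^ 2 / 4 := by nlinarith
          have q2 : 0 ≤ ((y - L) / 2 + 2) ^ 2 := sq_nonneg _
          nlinarith
        have h1V : 1 - V n ≤ 1 := by linarith [hV0 n]
        calc lam n ^ 2 * gs (y - L) * (1 - V n) ≤ lam n ^ 2 * gs (y - L) * 1 :=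
              mul_le_mul_of_nonneg_left h1V (mul_nonneg (sq_nonneg _) hg0)
          _ ≤ 4 * (Real.exp 4 * Real.exp (2 * M - ρ ^ 2 * M ^ 2 / 16) * (1 / (n : ℝ) ^ 2)) := by
              rw [mul_one]
              exact mul_le_mul (lam_sq_le n) hexp hg0 (by norm_num)
          _ = 4 * Real.exp 4 * Real.exp (2 * M - ρ ^ 2 * M ^ 2 / 16) * (1 / (n : ℝ) ^ 2) := by ring
          _ ≤ _ := by linarith

lemma cf_integral {M : ℝ} (hM : 0 < M) (h : ℝ → ℝ) (L : ℝ) :
    (∫ ξ in (0 : ℝ)..1, h ξ * gs (M * ξ - L)) =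
      (1 / M) * ∫ y in (0 : ℝ)..M, h (y / M) * gs (y - L) := by
  have h1 := intervalIntegral.integral_comp_mul_left (a := 0) (b := 1)
    (fun y => h (y / M) * gs (y - L)) hM.ne'
  rw [mul_zero, mul_one, smul_eq_mul] at h1
  rw [one_div, ← h1]
  refine intervalIntegral.integral_congr fun ξ _ => ?_
  show h ξ * gs (M * ξ - L) = h (M * ξ / M) * gs (M * ξ - L)
  rw [mul_div_cancel_left₀ _ hM.ne']

/-- the error term -/
noncomputable def Err (B K1 C K2 ρ M : ℝ) : ℝ :=
  B * (K1 / M + Real.exp (-(ρ ^ 2 * M ^ 2 / 8)) * (1 / 2 + 2 * C) +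
    K2 * Real.exp (2 * M - ρ ^ 2 * M ^ 2 / 16))

lemma Err_tendsto (B K1 C K2 ρ : ℝ) (hρ : 0 < ρ) :
    Tendsto (fun M => Err B K1 C K2 ρ M) atTop (𝓝 0) := by
  have t1 : Tendsto (fun M : ℝ => K1 / M) atTop (𝓝 0) := tendsto_const_nhds.div_atTop tendsto_id
  have t2 : Tendsto (fun M : ℝ => -(ρ ^ 2 * M ^ 2 / 8)) atTop atBot := by
    apply tendsto_neg_atTop_atBot.comp
    apply Tendsto.atTop_div_const (by norm_num)
    apply Tendsto.const_mul_atTop (by positivity)
    exact tendsto_pow_atTop (by norm_num)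
  have t3 : Tendsto (fun M : ℝ => 2 * M - ρ ^ 2 * M ^ 2 / 16) atTop atBot := by
    have h : (fun M : ℝ => 2 * M - ρ ^ 2 * M ^ 2 / 16) = fun M => -(M * (ρ ^ 2 / 16 * M - 2)) := by
      funext M; ring
    rw [h]
    apply tendsto_neg_atTop_atBot.comp
    apply tendsto_id.atTop_mul_atTop₀
    apply tendsto_atTop_add_const_right
    exact Tendsto.const_mul_atTop (by positivity) tendsto_id
  have t4 := (Real.tendsto_exp_atBot.comp t2).mul_const (1 / 2 + 2 * C)
  have t5 := (Real.tendsto_exp_atBot.comp t3).const_mul K2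
  have t6 := ((t1.add t4).add t5).const_mul B
  simp only [zero_mul, mul_zero, add_zero] at t6
  exact t6

end Sum2

open Sum2 in
theorem sum2 (hk : S_KCUM) : S_SUM2 := by
  obtain ⟨hs, hKc, C, hC, hcum⟩ := hk
  intro b h had ρ η hρ hη
  obtain ⟨B0, hB0⟩ := had.bdd
  set B : ℝ := max B0 0 with hB
  have hBn : 0 ≤ B := le_max_right _ _
  have hBb : ∀ ξ, |h ξ| ≤ B := fun ξ => (hB0 ξ).trans (le_max_left _ _)
  set K1 : ℝ := ∑' n : ℕ, lam n ^ 2 * Real.exp (-(Real.log n) ^ 2 / 2) with hK1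
  have hK10 : 0 ≤ K1 := tsum_nonneg fun n => by positivity
  set K2 : ℝ := 4 * Real.exp 4 * (∑' n : ℕ, 1 / (n : ℝ) ^ 2) with hK2
  have hK20 : 0 ≤ K2 := by
    have : 0 ≤ ∑' n : ℕ, 1 / (n : ℝ) ^ 2 := tsum_nonneg fun n => by positivity
    positivity
  have hKKn : ∀ y, 0 ≤ KK y := fun y => tsum_nonneg fun n => mul_nonneg (sq_nonneg _) (gs_nonneg _)
  have ev1 := (Err_tendsto B K1 C K2 ρ hρ).eventually (gt_mem_nhds (show (0 : ℝ) < η / 2 by linarith))
  have ev2 := (Metric.tendsto_nhds.1 had.w1) (η / 2) (by linarith)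
  obtain ⟨M0, hM0⟩ := (ev1.and (ev2.and (eventually_ge_atTop (1 : ℝ)))).exists_forall_of_atTop
  refine ⟨M0, fun M ℓ hM hℓ N hN => ?_⟩
  obtain ⟨e1, e2, hM1⟩ := hM0 M hM
  rw [Real.dist_eq] at e2
  have hMp : 0 < M := by linarith
  have hℓ0 : 0 ≤ ℓ := le_trans (by positivity) hℓ
  set G : ℝ → ℝ := fun y => ∑ n ∈ Finset.Icc 2 N, lam n ^ 2 *
    (∫ u in (0 : ℝ)..ℓ, gs (u - Real.log n)) * gs (y - Real.log n) with hG
  have hGc : Continuous G := by
    rw [hG]
    refine continuous_finsetSum _ fun n _ => ?_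
    exact continuous_const.mul (gs_cont.comp (continuous_id.sub continuous_const))
  -- integrability
  have hint : ∀ f : ℝ → ℝ, Continuous f → IntervalIntegrable (fun y => h (y / M) * f y) volume 0 M := by
    intro f hf
    rw [intervalIntegrable_iff, uIoc_of_le hMp.le]
    obtain ⟨A, hA⟩ := (isCompact_Icc (a := (0 : ℝ)) (b := M)).exists_bound_of_continuousOn
      hf.continuousOn
    refine Measure.integrableOn_of_bounded (M := B * A) (by simp) ?_ ?_
    · exact ((had.meas.comp (measurable_id.div_const M)).mul hf.measurable).aestronglyMeasurable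
    · refine (ae_restrict_iff' measurableSet_Ioc).mpr (Eventually.of_forall fun y hy => ?_)
      rw [norm_mul]
      exact mul_le_mul (hBb _) (hA y ⟨hy.1.le, hy.2⟩) (norm_nonneg _) hBn
  -- the finite sum
  have hfin : (1 / M) * (∑ n ∈ Finset.Icc 2 N, cf h M n * qf ℓ n) =
      (1 / M ^ 2) * ∫ y in (0 : ℝ)..M, h (y / M) * G y := by
    have e3 : (∫ y in (0 : ℝ)..M, h (y / M) * G y) = ∑ n ∈ Finset.Icc 2 N, lam n ^ 2 *
        (∫ u in (0 : ℝ)..ℓ, gs (u - Real.log n)) * ∫ y in (0 : ℝ)..M, h (y / M) * gs (y - Real.log n) := by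
      have e4 : (fun y => h (y / M) * G y) = fun y => ∑ n ∈ Finset.Icc 2 N, lam n ^ 2 *
          (∫ u in (0 : ℝ)..ℓ, gs (u - Real.log n)) * (h (y / M) * gs (y - Real.log n)) := by
        funext y
        rw [hG]
        simp only
        rw [Finset.mul_sum]
        refine Finset.sum_congr rfl fun n _ => ?_
        ring
      rw [e4, intervalIntegral.integral_finsetSum]
      · refine Finset.sum_congr rfl fun n _ => ?_
        rw [intervalIntegral.integral_const_mul]
      · intro n _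
        exact (hint _ (gs_cont.comp (continuous_id.sub continuous_const))).const_mul _
    rw [e3, Finset.mul_sum, Finset.mul_sum]
    refine Finset.sum_congr rfl fun n _ => ?_
    rw [cf, qf, cf_integral hMp]
    field_simp
  -- the difference
  have hdiff : |(∫ y in (0 : ℝ)..M, h (y / M) * KK y) - ∫ y in (0 : ℝ)..M, h (y / M) * G y| ≤
      B * (K1 * M + Real.exp (-(ρ ^ 2 * M ^ 2 / 8)) * (∫ y in (0 : ℝ)..M, KK y) +
        K2 * Real.exp (2 * M - ρ ^ 2 * M ^ 2 / 16) * M) := by
    rw [← intervalIntegral.integral_sub (hint _ hKc) (hint _ hGc)]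
    have hEint : IntervalIntegrable (fun y => B * (K1 + Real.exp (-(ρ ^ 2 * M ^ 2 / 8)) * KK y +
        K2 * Real.exp (2 * M - ρ ^ 2 * M ^ 2 / 16))) volume 0 M := by
      apply Continuous.intervalIntegrable
      fun_prop
    have h1 := intervalIntegral.norm_integral_le_of_norm_le (a := 0) (b := M) (μ := volume) hMp.le
      (f := fun y => h (y / M) * KK y - h (y / M) * G y)
      (g := fun y => B * (K1 + Real.exp (-(ρ ^ 2 * M ^ 2 / 8)) * KK y +
        K2 * Real.exp (2 * M - ρ ^ 2 * M ^ 2 / 16))) ?_ hEint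
    · rw [Real.norm_eq_abs] at h1
      refine h1.trans (le_of_eq ?_)
      rw [intervalIntegral.integral_const_mul, intervalIntegral.integral_add,
        intervalIntegral.integral_add, intervalIntegral.integral_const,
        intervalIntegral.integral_const_mul, intervalIntegral.integral_const]
      · simp only [sub_zero, smul_eq_mul]
        ring
      · exact intervalIntegrable_const
      · exact (hKc.const_mul _).intervalIntegrable _ _
      · exact (continuous_const.add (hKc.const_mul _)).intervalIntegrable _ _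
      · exact intervalIntegrable_const
    · refine Eventually.of_forall fun y hy => ?_
      have hE0 : 0 ≤ K1 + Real.exp (-(ρ ^ 2 * M ^ 2 / 8)) * KK y +
        K2 * Real.exp (2 * M - ρ ^ 2 * M ^ 2 / 16) := by
        have := hKKn y
        positivity
      rw [← mul_sub, norm_mul, Real.norm_eq_abs, Real.norm_eq_abs]
      by_cases hyb : y ≤ b * M
      · obtain ⟨r1, r2⟩ := rem_bound hs (b := b) (ρ := ρ) (M := M) (ℓ := ℓ) (y := y) (N := N)
          had.b1 hρ hMp hℓ hN hyb
        refine mul_le_mul (hBb _) ?_ (abs_nonneg _) hBn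
        rw [abs_of_nonneg r1]
        exact r2
      · have hz : h (y / M) = 0 := by
          apply had.supp
          rw [lt_div_iff₀ hMp]
          exact not_le.1 hyb
        rw [hz, abs_zero, zero_mul]
        positivity
  have hcumM := (abs_le.1 (hcum M hMp.le)).2
  have hKint : (∫ y in (0 : ℝ)..M, KK y) ≤ M ^ 2 * (1 / 2 + 2 * C) := by
    have k1 : M + 1 ≤ 2 * M ^ 2 := by nlinarith
    have k2 := mul_le_mul_of_nonneg_left k1 hC.le
    linarith
  have hErr : (1 / M ^ 2) * (B * (K1 * M + Real.exp (-(ρ ^ 2 * M ^ 2 / 8)) *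
      (∫ y in (0 : ℝ)..M, KK y) + K2 * Real.exp (2 * M - ρ ^ 2 * M ^ 2 / 16) * M)) ≤
      Err B K1 C K2 ρ M := by
    unfold Err
    have f1 : (1 / M ^ 2) * (B * (K1 * M + Real.exp (-(ρ ^ 2 * M ^ 2 / 8)) *
      (∫ y in (0 : ℝ)..M, KK y) + K2 * Real.exp (2 * M - ρ ^ 2 * M ^ 2 / 16) * M)) =
      B * (K1 / M + Real.exp (-(ρ ^ 2 * M ^ 2 / 8)) * ((∫ y in (0 : ℝ)..M, KK y) / M ^ 2) +
        K2 * Real.exp (2 * M - ρ ^ 2 * M ^ 2 / 16) * (1 / M)) := by
      field_simp
    rw [f1]
    apply mul_le_mul_of_nonneg_left _ hBn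
    have f2 : (∫ y in (0 : ℝ)..M, KK y) / M ^ 2 ≤ 1 / 2 + 2 * C := by
      rw [div_le_iff₀ (by positivity)]
      linarith
    have f3 : 1 / M ≤ 1 := by
      rw [div_le_one hMp]
      exact hM1
    have f4 := mul_le_mul_of_nonneg_left f2 (Real.exp_pos (-(ρ ^ 2 * M ^ 2 / 8))).le
    have f5 := mul_le_mul_of_nonneg_left f3
      (mul_nonneg hK20 (Real.exp_pos (2 * M - ρ ^ 2 * M ^ 2 / 16)).le)
    linarith
  have hfinal : |(1 / M ^ 2) * (∫ y in (0 : ℝ)..M, h (y / M) * KK y) -
      (1 / M ^ 2) * ∫ y in (0 : ℝ)..M, h (y / M) * G y| ≤ Err B K1 C K2 ρ M := by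
    rw [← mul_sub, abs_mul, abs_of_pos (by positivity : (0 : ℝ) < 1 / M ^ 2)]
    exact (mul_le_mul_of_nonneg_left hdiff (by positivity)).trans hErr
  rw [hfin]
  have g1 := abs_le.1 hfinal
  have g2 := abs_lt.1 e2
  rw [abs_le]
  constructor <;> linarith [g1.1, g1.2, g2.1, g2.2]

end TC
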